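import Mathlib
import Pool.Agent.Helper579.IidCone

set_option autoImplicit false

namespace Pool.Agent.Results.MP_961271_an.NoLimit

open Pool.Agent.Helper579.Iid MeasureTheory Set Filter
open scoped ENNReal Topology

lemma rate_eq : rate 2 1 4 ∞ = 1 / 4 := by
  unfold rate
  simp only [ENNReal.toReal_inv, ENNReal.toReal_top, inv_zero, sub_zero]
  have h4 : (4 : ℝ≥0∞).toReal = 4 := by norm_num
  rw [h4]
  norm_num

lemma root4 {x : ℝ} (hx : 0 ≤ x) : x ^ (1 / 4 : ℝ) = Real.sqrt (Real.sqrt x) := by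
  rw [Real.sqrt_eq_rpow, Real.sqrt_eq_rpow, ← Real.rpow_mul hx]
  norm_num

lemma root4_pow {x : ℝ} (hx : 0 ≤ x) : Real.sqrt (Real.sqrt x) ^ 4 = x := by
  calc Real.sqrt (Real.sqrt x) ^ 4 = (Real.sqrt (Real.sqrt x) ^ 2) ^ 2 := by ring
    _ = x := by rw [Real.sq_sqrt (Real.sqrt_nonneg x), Real.sq_sqrt hx]

lemma good (b : ℕ) (hb : 1 ≤ b) (K : ℕ) :
    scaled (Dom b) 1 4 ∞ .ran (Ng b K ^ 2) ≤ ENNReal.ofReal (24 * KB + Cg) := by
  have hN : (0 : ℝ) < Ng b K := by rw [Ng_cast]; positivity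
  have hK := one_le_KB
  have hC := Cg_pos
  unfold scaled
  rw [rate_eq]
  have h1 : (((Ng b K ^ 2 : ℕ) : ℝ)) ^ (1 / 4 : ℝ) = Real.sqrt (Ng b K) := by
    push_cast
    rw [root4 (by positivity), Real.sqrt_sq hN.le]
  rw [h1]
  calc minErr (Dom b) 1 4 ∞ .ran (Ng b K ^ 2) * ENNReal.ofReal (Real.sqrt (Ng b K))
      ≤ ENNReal.ofReal ((24 * KB + Cg) * Real.sqrt (1 / (Ng b K : ℕ)))
        * ENNReal.ofReal (Real.sqrt (Ng b K)) := by
        gcongr
        exact good_scale hb K
    _ = ENNReal.ofReal (24 * KB + Cg) := by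
        rw [← ENNReal.ofReal_mul (by positivity), mul_assoc, ← Real.sqrt_mul (by positivity),
          one_div_mul_cancel hN.ne', Real.sqrt_one, mul_one]

lemma bad (m : ℕ) (hm : 1 ≤ m) (K : ℕ) :
    ENNReal.ofReal (2 ^ m / 16) ≤ scaled (Dom (2 * m)) 1 4 ∞ .ran (2 ^ (2 * m * (4 * K + 5))) := by
  set b := 2 * m with hb
  have hb1 : 1 ≤ b := by omega
  have hρ := rho_pos b K
  have hw := wid_pos b K
  set n : ℕ := 2 ^ (b * (4 * K + 5)) with hn
  set x : ℝ := rho b K * wid b K with hx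
  have hx0 : 0 < x := by positivity
  have hnx : x * n = 1 := by
    rw [hx, hn]
    unfold rho wid
    push_cast
    rw [← pow_add, show 2 * b * (K + 1) + b * (2 * K + 3) = b * (4 * K + 5) by ring, ← mul_pow]
    norm_num
  have hn0 : (0 : ℝ) < n := by rw [hn]; positivity
  obtain ⟨n', hn'⟩ : ∃ n', n = 2 * n' := by
    refine ⟨2 ^ (b * (4 * K + 5) - 1), ?_⟩
    rw [hn, ← pow_succ']
    congr 1
    have : 1 ≤ b * (4 * K + 5) := by nlinarith
    omega
  have hx1 : x ≤ 1 / 2 := by
    have : (2 : ℝ) ≤ n := by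
      have h1 : 1 ≤ n' := by
        rcases Nat.eq_zero_or_pos n' with h | h
        · rw [h] at hn'; rw [hn'] at hn0; norm_num at hn0
        · exact h
      have : 2 ≤ n := by omega
      exact_mod_cast this
    nlinarith
  have hprob : (1 : ℝ) / 4 ≤ (1 - x) ^ n := by
    have h1 : (1 : ℝ) / 2 ≤ (1 - x) ^ n' := by
      have h2 := one_add_mul_le_pow (a := -x) (by linarith) n'
      have h3 : (n' : ℝ) * x = 1 / 2 := by
        have : (n : ℝ) = 2 * n' := by exact_mod_cast hn'
        rw [this] at hnx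
        linarith
      have h4 : (1 : ℝ) + n' * -x = 1 / 2 := by linarith
      rw [h4] at h2
      rwa [← sub_eq_add_neg] at h2
    rw [hn', mul_comm 2 n', pow_mul]
    nlinarith
  set c : ℝ := (Real.sqrt (Real.sqrt (2 * x)))⁻¹ with hc
  have hc0 : 0 < c := by positivity
  have hc4 : c ^ 4 * (2 * x) = 1 := by
    rw [hc, inv_pow, root4_pow (by positivity)]
    field_simp
  have hlow := bad_scale hb1 K n hc0 hc4.le
  unfold scaled
  rw [rate_eq, root4 hn0.le]
  have hX : (2 : ℝ) ^ m / 2 ≤ c * rho b K * Real.sqrt (Real.sqrt n) := by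
    have h1 : (c * rho b K * Real.sqrt (Real.sqrt n)) ^ 4 = (2 ^ m) ^ 4 / 2 := by
      rw [mul_pow, mul_pow, root4_pow hn0.le]
      have e1 : c ^ 4 = 1 / (2 * x) := by
        rw [eq_div_iff (by positivity)]; exact hc4
      have e2 : (n : ℝ) = 1 / x := by
        rw [eq_div_iff hx0.ne', mul_comm]; exact hnx
      have e3 : rho b K = (2 ^ m) ^ 2 * wid b K := by
        rw [wid_eq, hb, mul_comm (rho (2 * m) K), ← mul_assoc, ← pow_mul, mul_comm m 2, ← mul_pow]
        norm_num
      rw [e1, e2, hx]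
      rw [e3]
      field_simp
    apply le_of_pow_le_pow_left₀ (n := 4) (by norm_num) (by positivity)
    rw [h1, div_pow]
    have : (0 : ℝ) < (2 ^ m) ^ 4 := by positivity
    norm_num
    linarith
  calc ENNReal.ofReal (2 ^ m / 16)
      ≤ ENNReal.ofReal (c * rho b K / 2 * (1 - x) ^ n * Real.sqrt (Real.sqrt n)) := by
        apply ENNReal.ofReal_le_ofReal
        have h2 : 0 ≤ c * rho b K * Real.sqrt (Real.sqrt n) := by positivity
        calc (2 : ℝ) ^ m / 16 = 2 ^ m / 2 * (1 / 8) := by ring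
          _ ≤ c * rho b K * Real.sqrt (Real.sqrt n) * (1 / 8) := by linarith
          _ = c * rho b K * Real.sqrt (Real.sqrt n) / 2 * (1 / 4) := by ring
          _ ≤ c * rho b K * Real.sqrt (Real.sqrt n) / 2 * (1 - x) ^ n := by
              apply mul_le_mul_of_nonneg_left hprob (by positivity)
          _ = c * rho b K / 2 * (1 - x) ^ n * Real.sqrt (Real.sqrt n) := by ring
    _ = ENNReal.ofReal (c * rho b K / 2 * (1 - x) ^ n) * ENNReal.ofReal (Real.sqrt (Real.sqrt n)) := by
        apply ENNReal.ofReal_mul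
        have : 0 ≤ 1 - x := by linarith
        positivity
    _ ≤ _ := by gcongr

/-- **Main result.** There is an admissible domain in the plane such that for the approximation of
functions from `W_4^1` in the sup-norm the sequence `e(P_n) n^(1/4)` of the normalised minimal
Monte Carlo errors of independent uniformly distributed points does not converge. -/
theorem result :
    ∃ D : Set (Fin 2 → ℝ), Admissible D ∧ InScope 2 1 4 ∞ Crit.ran ∧
      liminf (scaled D 1 4 ∞ Crit.ran) atTop < limsup (scaled D 1 4 ∞ Crit.ran) atTop ∧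
      ¬ ∃ L : ℝ≥0∞, Tendsto (scaled D 1 4 ∞ Crit.ran) atTop (𝓝 L) := by
  obtain ⟨m, hm⟩ := pow_unbounded_of_one_lt (16 * (24 * KB + Cg)) (one_lt_two (α := ℝ))
  set m' := m + 1 with hm'
  have hm1 : 24 * KB + Cg < 2 ^ m' / 16 := by
    have h1 : (2 : ℝ) ^ m ≤ 2 ^ m' := pow_le_pow_right₀ (by norm_num) (by omega)
    linarith
  have hpos : 0 < 24 * KB + Cg := by
    have := one_le_KB
    have := Cg_pos
    linarith
  have hlt : liminf (scaled (Dom (2 * m')) 1 4 ∞ Crit.ran) atTop
      < limsup (scaled (Dom (2 * m')) 1 4 ∞ Crit.ran) atTop := by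
    have h1 : liminf (scaled (Dom (2 * m')) 1 4 ∞ Crit.ran) atTop
        ≤ ENNReal.ofReal (24 * KB + Cg) := by
      apply liminf_le_of_frequently_le'
      rw [frequently_atTop]
      intro a
      refine ⟨Ng (2 * m') a ^ 2, ?_, good (2 * m') (by omega) a⟩
      have h2 : a < 2 ^ a := Nat.lt_two_pow_self
      have h3 : 2 ^ a ≤ Ng (2 * m') a := by
        unfold Ng
        apply Nat.pow_le_pow_right (by norm_num)
        nlinarith
      nlinarith
    have h2 : ENNReal.ofReal (2 ^ m' / 16)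
        ≤ limsup (scaled (Dom (2 * m')) 1 4 ∞ Crit.ran) atTop := by
      apply le_limsup_of_frequently_le'
      rw [frequently_atTop]
      intro a
      refine ⟨2 ^ (2 * m' * (4 * a + 5)), ?_, bad m' (by omega) a⟩
      have h2 : a < 2 ^ a := Nat.lt_two_pow_self
      have h3 : 2 ^ a ≤ 2 ^ (2 * m' * (4 * a + 5)) := by
        apply Nat.pow_le_pow_right (by norm_num)
        nlinarith
      exact h2.le.trans h3
    refine lt_of_le_of_lt h1 (lt_of_lt_of_le ?_ h2)
    exact (ENNReal.ofReal_lt_ofReal_iff (by positivity)).mpr hm1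
  refine ⟨Dom (2 * m'), admissible_Dom (by omega), ?_, hlt, ?_⟩
  · unfold InScope
    refine ⟨le_rfl, by norm_num, le_top, Or.inl ?_, by norm_num⟩
    rw [ENNReal.toReal_inv]
    have h4 : (4 : ℝ≥0∞).toReal = 4 := by norm_num
    rw [h4]
    norm_num
  · rintro ⟨L, hL⟩
    rw [hL.liminf_eq, hL.limsup_eq] at hlt
    exact lt_irrefl _ hlt

end Pool.Agent.Results.MP_961271_an.NoLimit
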